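import Pool.Agent.Helper49.TP.StF

/-! Project TP, module FAV: averaging over the group (helper33). -/

set_option autoImplicit false

namespace Pool.Agent.Helper33.TP

open Finset Pool.Agent.Helper49.TP Pool.Agent.Helper93.IA

section Av

variable {H : Type} (S : Finset H)

/-- average over a finite set -/
private noncomputable def av (f : H → ℝ) : ℝ := (∑ h ∈ S, f h) / S.card

private lemma av_const (hS : S.Nonempty) (f : H → ℝ) (c : ℝ) (h : ∀ g ∈ S, f g = c) :
    av S f = c := by
  unfold av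
  rw [sum_congr rfl h, sum_const, nsmul_eq_mul]
  have : (S.card : ℝ) ≠ 0 := Nat.cast_ne_zero.mpr (card_pos.mpr hS).ne'
  field_simp

private lemma av_mono (f f' : H → ℝ) (h : ∀ g ∈ S, f g ≤ f' g) : av S f ≤ av S f' := by
  unfold av
  exact div_le_div_of_nonneg_right (sum_le_sum h) (Nat.cast_nonneg _)

private lemma av_add (f f' : H → ℝ) : av S f + av S f' = av S (fun g => f g + f' g) := by
  unfold av
  rw [← add_div, sum_add_distrib]

private lemma av_sum {ι : Type} [Fintype ι] (f : H → ι → ℝ) :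
    ∑ i, av S (fun g => f g i) = av S (fun g => ∑ i, f g i) := by
  unfold av
  rw [← sum_div, sum_comm]

private lemma av_mul (c : ℝ) (f : H → ℝ) : c * av S f = av S (fun g => c * f g) := by
  unfold av
  rw [← mul_sum, mul_div_assoc]

end Av

open Classical in
/-- the group -/
private noncomputable def GG {n : ℕ} (FA FB FC : Fin n → Fin n → ℝ) : Finset (P3 n) :=
  univ.filter (Pr2 FA FB FC)

private lemma mem_GG {n : ℕ} {FA FB FC : Fin n → Fin n → ℝ} {h : P3 n} :
    h ∈ GG FA FB FC ↔ Pr2 FA FB FC h := by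
  classical
  unfold GG
  rw [mem_filter]
  exact ⟨fun h => h.2, fun h => ⟨mem_univ _, h⟩⟩

private lemma GG_ne {n : ℕ} (FA FB FC : Fin n → Fin n → ℝ) : (GG FA FB FC).Nonempty :=
  ⟨1, mem_GG.mpr ⟨fun _ _ => rfl, fun _ _ => rfl, fun _ _ => rfl⟩⟩

private lemma Pr2_mul {n : ℕ} {FA FB FC : Fin n → Fin n → ℝ} {g h : P3 n}
    (hg : Pr2 FA FB FC g) (hh : Pr2 FA FB FC h) : Pr2 FA FB FC (g * h) :=
  ⟨fun r c => (hg.1 (h.1 r) (h.2.1 c)).trans (hh.1 r c),
    fun c s => (hg.2.1 (h.2.1 c) (h.2.2 s)).trans (hh.2.1 c s),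
    fun s r => (hg.2.2 (h.2.2 s) (h.1 r)).trans (hh.2.2 s r)⟩

private lemma Pr2_inv {n : ℕ} {FA FB FC : Fin n → Fin n → ℝ} {h : P3 n}
    (hh : Pr2 FA FB FC h) : Pr2 FA FB FC h⁻¹ := by
  have e : ∀ (p : Equiv.Perm (Fin n)) (i : Fin n), p (p⁻¹ i) = i := fun p i => p.apply_symm_apply i
  refine ⟨fun r c => ?_, fun c s => ?_, fun s r => ?_⟩
  · have := hh.1 (h.1⁻¹ r) (h.2.1⁻¹ c)
    rw [e, e] at this
    exact this.symm
  · have := hh.2.1 (h.2.1⁻¹ c) (h.2.2⁻¹ s)
    rw [e, e] at this
    exact this.symm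
  · have := hh.2.2 (h.2.2⁻¹ s) (h.1⁻¹ r)
    rw [e, e] at this
    exact this.symm

private lemma av_inv {n : ℕ} {FA FB FC : Fin n → Fin n → ℝ} (h0 : P3 n)
    (hh : Pr2 FA FB FC h0) (f : P3 n → ℝ) :
    av (GG FA FB FC) (fun h => f (h * h0)) = av (GG FA FB FC) f := by
  unfold av
  congr 1
  refine sum_bij' (fun h _ => h * h0) (fun h _ => h * h0⁻¹) ?_ ?_ ?_ ?_ ?_
  · intro h h1
    exact mem_GG.mpr (Pr2_mul (mem_GG.mp h1) hh)
  · intro h h1
    exact mem_GG.mpr (Pr2_mul (mem_GG.mp h1) (Pr2_inv hh))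
  · intro h _
    exact mul_inv_cancel_right h h0
  · intro h _
    exact inv_mul_cancel_right h h0
  · intro h _
    rfl

theorem hFAV : StFAV := by
  intro n Λ t FA FB FC
  have hS := GG_ne FA FB FC
  refine ⟨?_, ?_⟩
  · intro x hx
    refine ⟨fun r c s => av (GG FA FB FC) (fun h => x (h.1 r) (h.2.1 c) (h.2.2 s)),
      ⟨?_, ?_, ?_, ?_⟩, ?_⟩
    · intro r c s
      constructor
      · rw [← av_const (GG FA FB FC) hS (fun _ => 0) 0 fun _ _ => rfl]
        exact av_mono _ _ _ fun g _ => (hx.1 _ _ _).1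
      · refine (av_mono _ _ _ fun g _ => (hx.1 _ _ _).2).trans_eq ?_
        exact av_const (GG FA FB FC) hS (fun _ => Λ) Λ fun _ _ => rfl
    · intro r c
      rw [av_sum]
      refine av_const _ hS _ _ fun g hg => ?_
      rw [Equiv.sum_comp g.2.2 (fun s => x (g.1 r) (g.2.1 c) s), hx.2.1, (mem_GG.mp hg).1]
    · intro c s
      rw [av_sum]
      refine av_const _ hS _ _ fun g hg => ?_
      rw [Equiv.sum_comp g.1 (fun r => x r (g.2.1 c) (g.2.2 s)), hx.2.2.1, (mem_GG.mp hg).2.1]
    · intro s r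
      rw [av_sum]
      refine av_const _ hS _ _ fun g hg => ?_
      rw [Equiv.sum_comp g.2.1 (fun c => x (g.1 r) c (g.2.2 s)), hx.2.2.2, (mem_GG.mp hg).2.2]
    · intro h hh r c s
      exact av_inv h hh (fun h => x (h.1 r) (h.2.1 c) (h.2.2 s))
  · intro x α β γ hx hs hd
    refine ⟨fun r c => av (GG FA FB FC) (fun h => α (h.1 r) (h.2.1 c)),
      fun c s => av (GG FA FB FC) (fun h => β (h.2.1 c) (h.2.2 s)),
      fun s r => av (GG FA FB FC) (fun h => γ (h.2.2 s) (h.1 r)), ?_, ?_, ?_⟩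
    · intro r c s
      rw [av_add, av_add]
      constructor
      · intro h
        rw [← av_const (GG FA FB FC) hS (fun _ => 0) 0 fun _ _ => rfl]
        refine av_mono _ _ _ fun g hg => ?_
        apply (hs _ _ _).1
        rw [hx g (mem_GG.mp hg)]
        exact h
      · intro h
        refine (av_mono _ _ (fun _ => 0) fun g hg => ?_).trans_eq
          (av_const (GG FA FB FC) hS (fun _ => 0) 0 fun _ _ => rfl)
        apply (hs _ _ _).2
        rw [hx g (mem_GG.mp hg)]
        exact h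
    · refine lt_of_eq_of_lt ?_ hd
      have h1 : ∀ (F A : Fin n → Fin n → ℝ) (p q : P3 n → Equiv.Perm (Fin n)),
          (∀ g ∈ GG FA FB FC, ∀ i j, F (p g i) (q g j) = F i j) →
          ∑ i, ∑ j, (F i j - 1) * av (GG FA FB FC) (fun h => A (p h i) (q h j)) =
          ∑ i, ∑ j, (F i j - 1) * A i j := by
        intro F A p q hF
        calc ∑ i, ∑ j, (F i j - 1) * av (GG FA FB FC) (fun h => A (p h i) (q h j))
            = av (GG FA FB FC) (fun h => ∑ i, ∑ j, (F i j - 1) * A (p h i) (q h j)) := by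
              rw [← av_sum]
              refine sum_congr rfl fun i _ => ?_
              rw [← av_sum]
              refine sum_congr rfl fun j _ => ?_
              rw [av_mul]
          _ = ∑ i, ∑ j, (F i j - 1) * A i j := by
              refine av_const _ hS _ _ fun g hg => ?_
              rw [← Equiv.sum_comp (p g) (fun i => ∑ j, (F i j - 1) * A i j)]
              refine sum_congr rfl fun i _ => ?_
              rw [← Equiv.sum_comp (q g) (fun j => (F (p g i) j - 1) * A (p g i) j)]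
              refine sum_congr rfl fun j _ => ?_
              rw [hF g hg]
      unfold Dv
      rw [h1 FA α (fun h => h.1) (fun h => h.2.1) fun g hg => (mem_GG.mp hg).1,
        h1 FB β (fun h => h.2.1) (fun h => h.2.2) fun g hg => (mem_GG.mp hg).2.1,
        h1 FC γ (fun h => h.2.2) (fun h => h.1) fun g hg => (mem_GG.mp hg).2.2]
    · intro h hh
      refine ⟨fun r c => ?_, fun c s => ?_, fun s r => ?_⟩
      · exact av_inv h hh (fun h => α (h.1 r) (h.2.1 c))
      · exact av_inv h hh (fun h => β (h.2.1 c) (h.2.2 s))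
      · exact av_inv h hh (fun h => γ (h.2.2 s) (h.1 r))

end Pool.Agent.Helper33.TP
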