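import Pool.Agent.Helper49.TP.StM

/-! Project TP, module NSX: restriction of the weight to a subgraph (helper33). -/

set_option autoImplicit false

namespace Pool.Agent.Helper33.TP

open Finset Pool.Agent.Helper49.TP Pool.Agent.Helper93.IA Pool.Agent.Helper38.IA

private lemma key {ι : Type} [Fintype ι] (x x' p q : ι → ℝ) (L t n ε : ℝ) (hn : 0 < n)
    (hL : 0 ≤ L) (h0 : ∀ i, x' i ≤ x i) (h1 : ∀ i, x i - x' i ≤ L / n * (p i + q i))
    (hp : ∑ i, p i ≤ t * n) (hq : ∑ i, q i ≤ t * n) (hs : |∑ i, x i - 1| ≤ ε) :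
    |∑ i, x' i - 1| ≤ ε + 2 * L * t := by
  have h2 : ∑ i, (x i - x' i) ≤ 2 * L * t := by
    calc ∑ i, (x i - x' i) ≤ ∑ i, L / n * (p i + q i) := sum_le_sum fun i _ => h1 i
      _ = L / n * (∑ i, p i + ∑ i, q i) := by rw [← mul_sum, sum_add_distrib]
      _ ≤ L / n * (t * n + t * n) := by
        apply mul_le_mul_of_nonneg_left (add_le_add hp hq) (div_nonneg hL hn.le)
      _ = 2 * L * t := by field_simp; ring
  have h3 : 0 ≤ ∑ i, (x i - x' i) := sum_nonneg fun i _ => sub_nonneg.mpr (h0 i)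
  rw [sum_sub_distrib] at h2 h3
  obtain ⟨h4, h5⟩ := abs_le.mp hs
  rw [abs_le]
  constructor <;> linarith

theorem hNSX : StNSX := by
  classical
  intro α β γ _ _ _ _ _ _ c0 Λ ε t n A0 G1 B0 G2 C0 G3 x hn hΛ hx h1 h2 h3 sA sB sC
  have hn' : (0 : ℝ) < n := Nat.cast_pos.mpr hn
  have hLn : 0 ≤ Λ / n := div_nonneg hΛ hn'.le
  refine ⟨fun a b c => if Tri G1 G2 G3 a b c then x a b c else 0, ?_⟩
  have hle : ∀ a b c, (if Tri G1 G2 G3 a b c then x a b c else 0) ≤ x a b c := by
    intro a b c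
    split_ifs
    · exact le_rfl
    · exact hx.nn a b c
  have i0 : ∀ p : Prop, [Decidable p] → (0 : ℝ) ≤ if p then (1 : ℝ) else 0 := by
    intro p _
    split_ifs <;> norm_num
  refine { nn := ?_, up := ?_, tr := ?_, lo := ?_, eA := ?_, eB := ?_, eC := ?_ }
  · intro a b c
    show 0 ≤ if Tri G1 G2 G3 a b c then x a b c else 0
    split_ifs
    · exact hx.nn a b c
    · exact le_rfl
  · intro a b c
    exact (hle a b c).trans (hx.up a b c)
  · intro a b c h
    by_contra h'
    exact h (if_neg h')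
  · intro a b c h
    show c0 / n ≤ if Tri G1 G2 G3 a b c then x a b c else 0
    rw [if_pos h]
    exact hx.lo a b c ⟨h1 h.1, h2 h.2.1, h3 h.2.2⟩
  · intro a b hab
    refine key (fun c => x a b c) _ (fun c => if (b, c) ∈ B0 \ G2 then (1 : ℝ) else 0)
      (fun c => if (c, a) ∈ C0 \ G3 then (1 : ℝ) else 0) Λ t n ε hn' hΛ (fun c => hle a b c) ?_
      ?_ ?_ (hx.eA a b (h1 hab))
    · intro c
      show x a b c - (if Tri G1 G2 G3 a b c then x a b c else 0) ≤ _
      by_cases hT : Tri G1 G2 G3 a b c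
      · rw [if_pos hT, sub_self]
        exact mul_nonneg hLn (add_nonneg (i0 _) (i0 _))
      · rw [if_neg hT, sub_zero]
        by_cases hx0 : x a b c = 0
        · rw [hx0]
          exact mul_nonneg hLn (add_nonneg (i0 _) (i0 _))
        · have hT0 := hx.tr a b c hx0
          have : (1 : ℝ) ≤ (if (b, c) ∈ B0 \ G2 then (1 : ℝ) else 0) +
              (if (c, a) ∈ C0 \ G3 then (1 : ℝ) else 0) := by
            by_cases hb : (b, c) ∈ G2
            · have hc : (c, a) ∈ C0 \ G3 :=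
                mem_sdiff.mpr ⟨hT0.2.2, fun hc => hT ⟨hab, hb, hc⟩⟩
              rw [if_pos hc]
              linarith [i0 ((b, c) ∈ B0 \ G2)]
            · rw [if_pos (mem_sdiff.mpr ⟨hT0.2.1, hb⟩)]
              linarith [i0 ((c, a) ∈ C0 \ G3)]
          calc x a b c ≤ Λ / n * 1 := by rw [mul_one]; exact hx.up a b c
            _ ≤ _ := mul_le_mul_of_nonneg_left this hLn
    · rw [← d1_eq_sum]
      exact sB.1 b
    · rw [← d2_eq_sum]
      exact sC.2 a
  · intro b c hbc
    refine key (fun a => x a b c) _ (fun a => if (a, b) ∈ A0 \ G1 then (1 : ℝ) else 0)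
      (fun a => if (c, a) ∈ C0 \ G3 then (1 : ℝ) else 0) Λ t n ε hn' hΛ (fun a => hle a b c) ?_
      ?_ ?_ (hx.eB b c (h2 hbc))
    · intro a
      show x a b c - (if Tri G1 G2 G3 a b c then x a b c else 0) ≤ _
      by_cases hT : Tri G1 G2 G3 a b c
      · rw [if_pos hT, sub_self]
        exact mul_nonneg hLn (add_nonneg (i0 _) (i0 _))
      · rw [if_neg hT, sub_zero]
        by_cases hx0 : x a b c = 0
        · rw [hx0]
          exact mul_nonneg hLn (add_nonneg (i0 _) (i0 _))
        · have hT0 := hx.tr a b c hx0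
          have : (1 : ℝ) ≤ (if (a, b) ∈ A0 \ G1 then (1 : ℝ) else 0) +
              (if (c, a) ∈ C0 \ G3 then (1 : ℝ) else 0) := by
            by_cases hb : (a, b) ∈ G1
            · have hc : (c, a) ∈ C0 \ G3 :=
                mem_sdiff.mpr ⟨hT0.2.2, fun hc => hT ⟨hb, hbc, hc⟩⟩
              rw [if_pos hc]
              linarith [i0 ((a, b) ∈ A0 \ G1)]
            · rw [if_pos (mem_sdiff.mpr ⟨hT0.1, hb⟩)]
              linarith [i0 ((c, a) ∈ C0 \ G3)]
          calc x a b c ≤ Λ / n * 1 := by rw [mul_one]; exact hx.up a b c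
            _ ≤ _ := mul_le_mul_of_nonneg_left this hLn
    · rw [← d2_eq_sum]
      exact sA.2 b
    · rw [← d1_eq_sum]
      exact sC.1 c
  · intro c a hca
    refine key (fun b => x a b c) _ (fun b => if (a, b) ∈ A0 \ G1 then (1 : ℝ) else 0)
      (fun b => if (b, c) ∈ B0 \ G2 then (1 : ℝ) else 0) Λ t n ε hn' hΛ (fun b => hle a b c) ?_
      ?_ ?_ (hx.eC c a (h3 hca))
    · intro b
      show x a b c - (if Tri G1 G2 G3 a b c then x a b c else 0) ≤ _
      by_cases hT : Tri G1 G2 G3 a b c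
      · rw [if_pos hT, sub_self]
        exact mul_nonneg hLn (add_nonneg (i0 _) (i0 _))
      · rw [if_neg hT, sub_zero]
        by_cases hx0 : x a b c = 0
        · rw [hx0]
          exact mul_nonneg hLn (add_nonneg (i0 _) (i0 _))
        · have hT0 := hx.tr a b c hx0
          have : (1 : ℝ) ≤ (if (a, b) ∈ A0 \ G1 then (1 : ℝ) else 0) +
              (if (b, c) ∈ B0 \ G2 then (1 : ℝ) else 0) := by
            by_cases hb : (a, b) ∈ G1
            · have hc : (b, c) ∈ B0 \ G2 :=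
                mem_sdiff.mpr ⟨hT0.2.1, fun hc => hT ⟨hb, hc, hca⟩⟩
              rw [if_pos hc]
              linarith [i0 ((a, b) ∈ A0 \ G1)]
            · rw [if_pos (mem_sdiff.mpr ⟨hT0.1, hb⟩)]
              linarith [i0 ((b, c) ∈ B0 \ G2)]
          calc x a b c ≤ Λ / n * 1 := by rw [mul_one]; exact hx.up a b c
            _ ≤ _ := mul_le_mul_of_nonneg_left this hLn
    · rw [← d1_eq_sum]
      exact sA.1 a
    · rw [← d2_eq_sum]
      exact sB.2 c

end Pool.Agent.Helper33.TP
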